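import Mathlib
import Pool.Agent.H75.Stem

/-! There is no infinite tower of nontrivial abelian extensions of finite connected quandles. -/

set_option autoImplicit false

namespace Pool.Agent.Results.MP_caf75b_al.NoTower

open Subgroup Pool.Agent.H75.Stem
open scoped commutatorElement

/-- The quandle laws for `x * y = op x y`. -/
structure IsQuandle {X : Type} (op : X → X → X) : Prop where
  idem : ∀ a, op a a = a
  uniq : ∀ b c, ∃! a, op a b = c
  dist : ∀ a b c, op (op a b) c = op (op a c) (op b c)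

/-- The group generated by the right translations. -/
def Inn {X : Type} (op : X → X → X) : Subgroup (Equiv.Perm X) :=
  closure {σ | ∃ a, ∀ x, σ x = op x a}

/-- Connected: nonempty, and `Inn` acts transitively. -/
def Conn {X : Type} (op : X → X → X) : Prop := Nonempty X ∧ ∀ x y, ∃ g ∈ Inn op, g x = y

/-- Quandle 2-cocycles. -/
def Cocycle {X A : Type} [AddCommGroup A] (op : X → X → X) (φ : X → X → A) : Prop :=
  (∀ x y z, φ x y - φ x z + φ (op x y) z - φ (op x z) (op y z) = 0) ∧ ∀ x, φ x x = 0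

section
variable {X Y : Type} {op : X → X → X} {oq : Y → Y → Y}

noncomputable def R (h : IsQuandle op) (a : X) : Inn op :=
  ⟨Equiv.ofBijective (fun x => op x a) ((Function.bijective_iff_existsUnique _).2 (h.uniq a)),
    subset_closure ⟨a, fun _ => rfl⟩⟩

theorem ind (h : IsQuandle op) (T : Subgroup (Inn op)) (hT : ∀ a, R h a ∈ T) : T = ⊤ := by
  rw [eq_top_iff]
  rintro ⟨g, hg⟩ _
  induction hg using closure_induction with
  | mem σ hσ =>
    obtain ⟨a, ha⟩ := hσ
    have : σ = (R h a).1 := Equiv.ext ha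
    subst this
    exact hT a
  | one => exact one_mem T
  | mul a b ha hb h1 h2 => exact mul_mem (h1 trivial) (h2 trivial)
  | inv a ha h1 => exact inv_mem (h1 trivial)

theorem rel (h : IsQuandle op) (h' : IsQuandle oq) (p : X → Y)
    (hp : ∀ u v, p (op u v) = oq (p u) (p v)) (g : Inn op) :
    ∃ k : Inn oq, ∀ x, p (g.1 x) = k.1 (p x) := by
  let T : Subgroup (Inn op) :=
    { carrier := {g | ∃ k : Inn oq, ∀ x, p (g.1 x) = k.1 (p x)}
      one_mem' := ⟨1, fun _ => rfl⟩
      mul_mem' := by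
        rintro a b ⟨k, hk⟩ ⟨l, hl⟩
        exact ⟨k * l, fun x => by simp [hk, hl]⟩
      inv_mem' := by
        rintro a ⟨k, hk⟩
        refine ⟨k⁻¹, fun x => ?_⟩
        have := hk (a.1⁻¹ x)
        simp only [Equiv.Perm.coe_inv, Equiv.apply_symm_apply] at this
        simp [this] }
  have : g ∈ T := by rw [ind h T fun a => ⟨R h' (p a), fun x => hp x a⟩]; trivial
  exact this

theorem conj (h : IsQuandle op) (g : Inn op) (a : X) : g * R h a * g⁻¹ = R h (g.1 a) := by
  let T : Subgroup (Inn op) :=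
    { carrier := {g | ∀ x y, g.1 (op x y) = op (g.1 x) (g.1 y)}
      one_mem' := fun _ _ => rfl
      mul_mem' := fun {a b} ha hb x y => by simp [ha _ _, hb _ _]
      inv_mem' := fun {a} ha x y => by
        apply a.1.injective
        rw [ha]
        simp }
  have : g ∈ T := by rw [ind h T fun a x y => h.dist x y a]; trivial
  refine Subtype.ext (Equiv.ext fun x => ?_)
  change g.1 (op (g.1⁻¹ x) a) = op x (g.1 a)
  rw [this]
  simp

theorem lift (h : IsQuandle op) (p : X → Y) (hc : ∀ u v, p u = p v → ∀ x, op x u = op x v)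
    (h' : IsQuandle oq) (hp : ∀ u v, p (op u v) = oq (p u) (p v)) (j : ℕ) :
    ∀ (g : Inn op) (k : Inn oq), (∀ x, p (g.1 x) = k.1 (p x)) →
      k ∈ Subgroup.upperCentralSeries (Inn oq) j →
      g ∈ Subgroup.upperCentralSeries (Inn op) (j + 1) := by
  induction j with
  | zero =>
    intro g k hk hk1
    obtain rfl : k = 1 := by simpa using hk1
    rw [zero_add, Subgroup.upperCentralSeries_one, mem_center_iff]
    intro y
    have : y ∈ centralizer {g} := by
      rw [ind h (centralizer {g}) fun a => ?_]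
      · trivial
      · rw [mem_centralizer_singleton_iff, eq_comm, ← mul_inv_eq_iff_eq_mul, conj]
        exact Subtype.ext (Equiv.ext (hc _ _ (hk a)))
    exact mem_centralizer_singleton_iff.1 this
  | succ j ih =>
    intro g k hk hk1 y
    obtain ⟨l, hl⟩ := rel h h' p hp y
    refine ih ⁅g, y⁆ ⁅k, l⁆ (fun x => ?_) (hk1 l)
    have e1 : ∀ x, p (g.1⁻¹ x) = k.1⁻¹ (p x) := fun x => by
      apply k.1.injective; rw [← hk]; simp
    have e2 : ∀ x, p (y.1⁻¹ x) = l.1⁻¹ (p x) := fun x => by
      apply l.1.injective; rw [← hl]; simp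
    change p (g.1 (y.1 (g.1⁻¹ (y.1⁻¹ x)))) = k.1 (l.1 (k.1⁻¹ (l.1⁻¹ (p x))))
    rw [hk, hl, e1, e2]

theorem idx [Finite Y] (h : IsQuandle op) (h' : IsQuandle oq)
    (p : X → Y) (hp : ∀ u v, p (op u v) = oq (p u) (p v)) (Z : Subgroup (Inn op))
    (hm : ∀ g : Inn op, (∀ x, p (g.1 x) = p x) → g ∈ Z) : Z.index ≤ Nat.card (Inn oq) := by
  choose ρ hρ using rel h h' p hp
  have key : ∀ u v : Inn op, ρ u = ρ v → u⁻¹ * v ∈ Z := fun u v huv => hm _ fun x => by
    have e1 := hρ u (u.1⁻¹ (v.1 x))
    have e2 := hρ v x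
    simp only [Equiv.Perm.coe_inv, Equiv.apply_symm_apply] at e1
    rw [← huv, e1] at e2
    exact (ρ u).1.injective e2
  rw [index_eq_card]
  refine Nat.card_le_card_of_injective (fun c : Inn op ⧸ Z => ρ c.out) fun c d hcd => ?_
  have := QuotientGroup.eq.2 (key _ _ hcd)
  rwa [QuotientGroup.out_eq', QuotientGroup.out_eq'] at this

theorem ncl (h : IsQuandle op) (ht : ∀ x y, ∃ g ∈ Inn op, g x = y) (a : X) :
    normalClosure {R h a} = ⊤ := ind h _ fun b => by
  obtain ⟨g, hg, rfl⟩ := ht a b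
  have e := conj h ⟨g, hg⟩ a
  have := (normalClosure_normal (s := {R h a})).conj_mem (R h a)
    (subset_normalClosure (Set.mem_singleton _)) ⟨g, hg⟩
  rwa [e] at this

theorem size [Finite X] (h : IsQuandle op) (hc : Conn op) (m N : ℕ)
    (i1 : (Subgroup.upperCentralSeries (Inn op) m).index ≤ N) : Nat.card X ≤ B N := by
  obtain ⟨⟨a⟩, ht⟩ := hc
  have hr := ncl h ht a
  refine le_trans ?_ (bound hr m _ i1)
  refine Nat.card_le_card_of_surjective (fun d : commutator (Inn op) => d.1.1 a) fun b => ?_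
  obtain ⟨g, hg, rfl⟩ := ht a b
  have h0 : R h a ∈ MulAction.stabilizer (Inn op) a := by
    rw [MulAction.mem_stabilizer_iff]; exact h.idem a
  have h1 := top_of hr (commutator (Inn op) ⊔ MulAction.stabilizer (Inn op) a) le_sup_left
    (mem_sup_right h0)
  have h2 : (⟨g, hg⟩ : Inn op) ∈ commutator (Inn op) ⊔ MulAction.stabilizer (Inn op) a := by
    rw [h1]; trivial
  obtain ⟨d, hd, s, hs, e⟩ := mem_sup_of_normal_left.1 h2
  refine ⟨⟨d, hd⟩, ?_⟩
  have e2 : s.1 a = a := MulAction.mem_stabilizer_iff.1 hs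
  have := congrArg (fun t : Inn op => t.1 a) e
  simpa [e2] using this

end

theorem result : ¬ ∃ (Q : ℕ → Type) (op : ∀ n, Q n → Q n → Q n) (A : ℕ → Type)
    (_ : ∀ n, AddCommGroup (A n)) (φ : ∀ n, Q n → Q n → A n),
    (∀ n, Finite (Q n) ∧ IsQuandle (op n) ∧ Conn (op n)) ∧
    ∀ n, Nontrivial (A n) ∧ Cocycle (op n) (φ n) ∧ ∃ e : Q (n + 1) ≃ Q n × A n, ∀ u v,
      e (op (n + 1) u v) = (op n (e u).1 (e v).1, (e u).2 + φ n (e u).1 (e v).1) := by
  rintro ⟨Q, op, A, _, φ, h1, h2⟩
  choose hf hq hc using h1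
  choose hA _ e he using h2
  have key : ∀ n, ∃ p : Q n → Q 0, (∀ u v, p (op n u v) = op 0 (p u) (p v)) ∧
      ∀ g : Inn (op n), (∀ x, p (g.1 x) = p x) →
        g ∈ Subgroup.upperCentralSeries (Inn (op n)) n := by
    intro n
    induction n with
    | zero =>
      refine ⟨id, fun _ _ => rfl, fun g hg => ?_⟩
      exact (Subtype.ext (Equiv.ext hg) : g = 1)
    | succ n ih =>
      obtain ⟨p, hp, hg⟩ := ih
      have hh : ∀ u v, (e n (op (n + 1) u v)).1 = op n (e n u).1 (e n v).1 := fun u v => by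
        rw [he]
      refine ⟨fun x => p (e n x).1, fun u v => by simp only [hh, hp], fun g h => ?_⟩
      obtain ⟨k, hk⟩ := rel (hq _) (hq n) (fun x => (e n x).1) hh g
      refine lift (hq _) (fun x => (e n x).1) (fun u v huv x => (e n).injective ?_) (hq n) hh n g k
        hk (hg k fun x => ?_)
      · rw [he, he, huv]
      · have := h ((e n).symm (x, 0))
        simp only [hk, Equiv.apply_symm_apply] at this
        exact this
  have big : ∀ n, n < Nat.card (Q n) := by
    intro n
    induction n with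
    | zero => haveI := (hc 0).1; exact Nat.card_pos
    | succ n ih =>
      obtain ⟨x⟩ := (hc n).1
      haveI : Finite (A n) := Finite.of_injective (fun a => (e n).symm (x, a)) fun a b h => by
        simpa using h
      have : 1 < Nat.card (A n) := Finite.one_lt_card
      rw [Nat.card_congr (e n), Nat.card_prod]
      nlinarith
  obtain ⟨p, hp, hg⟩ := key (B (Nat.card (Inn (op 0))))
  exact absurd (big _) (not_lt.2 (size (hq _) (hc _) _ _ (idx (hq _) (hq 0) p hp _ hg)))

end Pool.Agent.Results.MP_caf75b_al.NoTower
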